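import Pool.Agent.Helper93.TLH.StB

/-!
# Project TH, CORE from B3a, B3b, UB, LB

Adapted from `Pool/Agent/Helper38/TLE/M_CoreOf.lean`.
-/

set_option autoImplicit false

namespace Pool.Agent.Helper66.TLH

open Pool.Agent.Helper14.CV (Homog EqC act Tl StFar StFex)
open Pool.Agent.Helper28.WK (Tw evw)
open Pool.Agent.Helper4.TL (OkE)
open Pool.Agent.Helper93.TLE (DDE)
open Pool.Agent.Helper93.TLH

private theorem Tw_congr {p : ℕ} (ls : List ℕ) (hls : OkE p ls) {G H : ℤ → ℤ → ℂ} (h : EqC G H) :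
    EqC (Tw 1 ls G) (Tw 1 ls H) := by
  induction ls with
  | nil => exact h
  | cons l ls ih =>
    exact (ih fun x hx => hls x (List.mem_cons_of_mem _ hx)).Tl
      (hls l List.mem_cons_self).1.pos 1

private theorem evLP_apply {p : ℕ} (G : ℤ → ℤ → ℂ) (ls : List ℕ) (hls : OkE p ls) :
    evLH p G ls = evw 1 ls G := if_pos hls

private theorem evLP_apply' {p : ℕ} (G : ℤ → ℤ → ℂ) (ls : List ℕ) (hls : ¬ OkE p ls) :
    evLH p G ls = 0 := if_neg hls

private theorem evLP_congr {p : ℕ} {G H : ℤ → ℤ → ℂ} (h : EqC G H) : evLH p G = evLH p H := by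
  funext ls
  by_cases hls : OkE p ls
  · rw [evLP_apply _ _ hls, evLP_apply _ _ hls]
    exact (Tw_congr ls hls h).diff (Or.inl one_ne_zero) (Or.inr one_ne_zero)
  · rw [evLP_apply' _ _ hls, evLP_apply' _ _ hls]

/-- The image of `ev` on the symbols of level `p^n`. -/
private noncomputable def V (p n : ℕ) : Submodule ℂ (List ℕ → ℂ) := (XSH p n).map (evLH p)

/-- The image of `ev` on the new symbols of level `p^n`. -/
private noncomputable def W (p n : ℕ) : Submodule ℂ (List ℕ → ℂ) := (NSH p n).map (evLH p)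

private theorem V_le_of_B3a (h : SHB3a) {p : ℕ} (hp : p.Prime) (hp2 : p ≠ 2) {n : ℕ} (hn : 3 ≤ n) :
    V p n ≤ V p (n - 1) ⊔ W p n := by
  rintro x ⟨G, hG, rfl⟩
  obtain ⟨G0, G1, h0, h1, h2⟩ := h p hp hp2 n G hn hG
  refine Submodule.mem_sup.mpr ⟨(evLH p) G0, ⟨G0, h0, rfl⟩, (evLH p) G1, ⟨G1, h1, rfl⟩, ?_⟩
  funext ls
  show evLH p G0 ls + evLH p G1 ls = evLH p G ls
  by_cases hls : OkE p ls
  · rw [evLP_apply _ _ hls, evLP_apply _ _ hls, evLP_apply _ _ hls]
    exact (h2 ls hls).symm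
  · rw [evLP_apply' _ _ hls, evLP_apply' _ _ hls, evLP_apply' _ _ hls, add_zero]

private theorem W_bound {p : ℕ} {dd : ℕ → ℕ} (h : UBH p dd) {n : ℕ} (hn : 3 ≤ n) :
    Module.Finite ℂ (W p n) ∧ Module.finrank ℂ (W p n) ≤ dd n ∧
      ∀ G : ℤ → ℤ → ℂ, NewSymH p n G → (evLH p) G = 0 → ¬ EqC G 0 →
        Module.finrank ℂ (W p n) + 1 ≤ dd n := by
  obtain ⟨Θ, hΘ⟩ := h n hn
  set f : NSH p n →ₗ[ℂ] (List ℕ → ℂ) := (evLH p) ∘ₗ (NSH p n).subtype with hf
  have hker : LinearMap.ker Θ ≤ LinearMap.ker f := by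
    intro G hG
    have h1 : EqC (G : ℤ → ℤ → ℂ) 0 := hΘ G (LinearMap.mem_ker.mp hG)
    refine LinearMap.mem_ker.mpr ?_
    show evLH p (G : ℤ → ℤ → ℂ) = 0
    rw [evLP_congr h1]
    exact map_zero (evLH p)
  set g : LinearMap.range Θ →ₗ[ℂ] (List ℕ → ℂ) :=
    (Submodule.liftQ (LinearMap.ker Θ) f hker) ∘ₗ (Θ.quotKerEquivRange.symm).toLinearMap with hg
  have hgΘ : ∀ G : NSH p n, g ⟨Θ G, LinearMap.mem_range_self Θ G⟩ = f G := by
    intro G
    have h1 : Θ.quotKerEquivRange.symm ⟨Θ G, LinearMap.mem_range_self Θ G⟩ =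
        (LinearMap.ker Θ).mkQ G := by
      rw [LinearEquiv.symm_apply_eq]
      rfl
    show (Submodule.liftQ (LinearMap.ker Θ) f hker)
      (Θ.quotKerEquivRange.symm ⟨Θ G, LinearMap.mem_range_self Θ G⟩) = f G
    rw [h1]
    rfl
  have hrange : W p n = LinearMap.range g := by
    ext x
    constructor
    · rintro ⟨G, hG, rfl⟩
      exact ⟨⟨Θ ⟨G, hG⟩, LinearMap.mem_range_self Θ _⟩, hgΘ ⟨G, hG⟩⟩
    · rintro ⟨⟨y, G, rfl⟩, rfl⟩
      exact ⟨(G : ℤ → ℤ → ℂ), G.2, (hgΘ G).symm⟩
  have hfin : Module.Finite ℂ (W p n) := by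
    rw [hrange]
    infer_instance
  have hrk := LinearMap.finrank_range_add_finrank_ker g
  have hle : Module.finrank ℂ (LinearMap.range Θ) ≤ dd n := by
    have := Submodule.finrank_le (LinearMap.range Θ)
    simpa using this
  refine ⟨hfin, ?_, ?_⟩
  · rw [hrange]
    omega
  · intro G hG he hne
    have h1 : Θ ⟨G, hG⟩ ≠ 0 := fun h0 => hne (hΘ ⟨G, hG⟩ h0)
    have h2 : (⟨Θ ⟨G, hG⟩, LinearMap.mem_range_self Θ _⟩ : LinearMap.range Θ) ∈
        LinearMap.ker g := by
      rw [LinearMap.mem_ker, hgΘ ⟨G, hG⟩]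
      exact he
    have h5 : Nontrivial (LinearMap.ker g) := by
      refine ⟨⟨⟨_, h2⟩, 0, fun h0 => h1 ?_⟩⟩
      have h4 := congrArg Subtype.val h0
      exact congrArg Subtype.val h4
    have h3 : 0 < Module.finrank ℂ (LinearMap.ker g) :=
      Module.finrank_pos (R := ℂ) (M := LinearMap.ker g)
    rw [hrange]
    omega

private theorem V_bound (h3a : SHB3a) {p D : ℕ} {dd : ℕ → ℕ} (hp : p.Prime) (hp2 : p ≠ 2)
    (h3b : B3bH p D) (hUB : UBH p dd) (n : ℕ) (hn : 2 ≤ n) :
    Module.Finite ℂ (V p n) ∧ Module.finrank ℂ (V p n) ≤ DDE D dd n := by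
  induction n, hn using Nat.le_induction with
  | base =>
    obtain ⟨e, he⟩ := h3b
    classical
    have hle : V p 2 ≤ Submodule.span ℂ
        (Set.range fun i : Fin D => fun ls : List ℕ => if OkE p ls then e i ls else 0) := by
      rintro x ⟨G, hG, rfl⟩
      obtain ⟨x, hx⟩ := he G hG
      have h1 : evLH p G = ∑ i, x i • (fun ls : List ℕ => if OkE p ls then e i ls else 0) := by
        funext ls
        rw [Finset.sum_apply]
        by_cases hls : OkE p ls
        · rw [evLP_apply _ _ hls, hx ls hls]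
          refine Finset.sum_congr rfl fun i _ => ?_
          show x i * e i ls = x i * (if OkE p ls then e i ls else 0)
          rw [if_pos hls]
        · rw [evLP_apply' _ _ hls]
          symm
          refine Finset.sum_eq_zero fun i _ => ?_
          show x i * (if OkE p ls then e i ls else 0) = 0
          rw [if_neg hls, mul_zero]
      rw [h1]
      exact Submodule.sum_mem _ fun i _ =>
        Submodule.smul_mem _ _ (Submodule.subset_span ⟨i, rfl⟩)
    have hfins : Module.Finite ℂ (Submodule.span ℂ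
        (Set.range fun i : Fin D => fun ls : List ℕ => if OkE p ls then e i ls else 0)) :=
      FiniteDimensional.span_of_finite ℂ (Set.finite_range _)
    have hfin : Module.Finite ℂ (V p 2) := Submodule.finiteDimensional_of_le hle
    refine ⟨hfin, ?_⟩
    have h1 := Submodule.finrank_mono hle
    have h2 := finrank_range_le_card (R := ℂ)
      (fun i : Fin D => fun ls : List ℕ => if OkE p ls then e i ls else (0 : ℂ))
    rw [Fintype.card_fin] at h2
    have h3 : DDE D dd 2 = D := by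
      unfold DDE
      simp
    rw [h3]
    exact h1.trans h2
  | succ m hm ih =>
    obtain ⟨ih1, ih2⟩ := ih
    have hm3 : 3 ≤ m + 1 := by omega
    obtain ⟨w1, w2, _⟩ := W_bound hUB hm3
    have hle := V_le_of_B3a h3a hp hp2 hm3
    rw [Nat.add_sub_cancel] at hle
    have hfin : Module.Finite ℂ (V p m ⊔ W p (m + 1) : Submodule ℂ (List ℕ → ℂ)) :=
      Submodule.finiteDimensional_sup _ _
    refine ⟨Submodule.finiteDimensional_of_le hle, ?_⟩
    have h1 := Submodule.finrank_mono hle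
    have h2 := Submodule.finrank_add_le_finrank_add_finrank (V p m) (W p (m + 1))
    have h3 : DDE D dd (m + 1) = DDE D dd m + dd (m + 1) := by
      unfold DDE
      rw [Finset.sum_Ico_succ_top (by omega)]
      ring
    omega

theorem hCoreOf : SHCoreOf := by
  intro h3a p D dd hp hp2 h3b hUB hLB n G hn hG hev
  by_contra hne
  have he : (evLH p) G = 0 := by
    funext ls
    by_cases hls : OkE p ls
    · rw [evLP_apply _ _ hls]
      exact hev ls hls
    · rw [evLP_apply' _ _ hls]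
      rfl
  obtain ⟨w1, w2, w3⟩ := W_bound hUB (n := n) (by omega)
  have hw := w3 G hG he hne
  obtain ⟨v1, v2⟩ := V_bound h3a hp hp2 h3b hUB (n - 1) (by omega)
  have hle := V_le_of_B3a h3a hp hp2 (n := n) (by omega)
  have hfin : Module.Finite ℂ (V p (n - 1) ⊔ W p n : Submodule ℂ (List ℕ → ℂ)) :=
    Submodule.finiteDimensional_sup _ _
  have hfinV : Module.Finite ℂ (V p n) := Submodule.finiteDimensional_of_le hle
  have h1 := Submodule.finrank_mono hle
  have h2 := Submodule.finrank_add_le_finrank_add_finrank (V p (n - 1)) (W p n)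
  have h3 : DDE D dd n = DDE D dd (n - 1) + dd n := by
    obtain ⟨m, rfl⟩ : ∃ m, n = m + 1 := ⟨n - 1, by omega⟩
    rw [Nat.add_sub_cancel]
    unfold DDE
    rw [Finset.sum_Ico_succ_top (by omega)]
    ring
  obtain ⟨H, hH, hli⟩ := hLB n (by omega)
  have hli' : LinearIndependent ℂ (fun k => (⟨evLH p (H k), ⟨H k, hH k, rfl⟩⟩ : V p n)) := by
    refine LinearIndependent.of_comp (V p n).subtype ?_
    exact hli
  have h4 := hli'.fintype_card_le_finrank
  rw [Fintype.card_fin] at h4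
  omega

end Pool.Agent.Helper66.TLH
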